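import Mathlib
import Pool.Agent.R1.Energy

/-!
# Deleting an edge never raises the energy by exactly two

Let `A` be the adjacency matrix of `G` and `B` that of the single edge `ij`, so that `A - B` is the
adjacency matrix of `G ∖ ij`. Let `X` be a symmetric orthogonal matrix with
`tr ((A - B) X) = ℰ(G ∖ ij)`. Then `ℰ(G ∖ ij) = tr (A X) - 2 X i j`. If this is at least
`ℰ(G) + 2`, then `X i j = -1` and `tr (A X) = ℰ(G)`, so that the other entries of `X` in the rows
and columns `i` and `j` vanish. Conjugating `X` by the reflection in the coordinate `j` gives an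
orthogonal matrix `Y` with `tr (A Y) = tr (A X) + 4 > ℰ(G)`, a contradiction.
-/

set_option autoImplicit false

open Matrix Finset

namespace Pool.Agent.Results.MP_51d21a_co.NoIncreaseByTwo

open Pool.Agent.R1.Energy

variable {n : Type*} [Fintype n] [DecidableEq n]

lemma row_sq (X : Matrix n n ℝ) (hX : Xᵀ * X = 1) (j : n) : ∑ k, X k j ^ 2 = 1 := by
  have := congrFun (congrFun hX j) j
  rw [Matrix.mul_apply, Matrix.one_apply_eq] at this
  rw [← this]
  refine Finset.sum_congr rfl fun k _ => ?_
  rw [Matrix.transpose_apply, pow_two]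

lemma neg_one_le (X : Matrix n n ℝ) (hX : Xᵀ * X = 1) (i j : n) : -1 ≤ X i j := by
  have h1 := row_sq X hX j
  have h2 : X i j ^ 2 ≤ ∑ k, X k j ^ 2 :=
    Finset.single_le_sum (f := fun k => X k j ^ 2) (fun _ _ => sq_nonneg _) (Finset.mem_univ i)
  rw [h1] at h2
  nlinarith

lemma zero_of (X : Matrix n n ℝ) (hX : Xᵀ * X = 1) (i j : n) (hij : X i j = -1) (k : n)
    (hk : k ≠ i) : X k j = 0 := by
  have h1 := row_sq X hX j
  have h2 : X i j ^ 2 + X k j ^ 2 ≤ ∑ k, X k j ^ 2 := by
    rw [← Finset.sum_pair (f := fun k => X k j ^ 2) hk.symm]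
    exact Finset.sum_le_sum_of_subset_of_nonneg (Finset.subset_univ _) (fun _ _ _ => sq_nonneg _)
  rw [h1, hij] at h2
  have h3 := sq_nonneg (X k j)
  have h4 : X k j ^ 2 = 0 := by linarith
  exact pow_eq_zero_iff two_ne_zero |>.1 h4

/-- the matrix form -/
lemma strict (A B : Matrix n n ℝ) (i j : n) (hij : i ≠ j)
    (hAB : ∀ k l, B k l = A k l - (if k = i ∧ l = j ∨ k = j ∧ l = i then 1 else 0))
    (hA : A.IsHermitian) (hB : B.IsHermitian) (hAij : A i j = 1) :
    ∑ k, |hB.eigenvalues k| < ∑ k, |hA.eigenvalues k| + 2 := by
  have hAji : A j i = 1 := by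
    have := congrFun (congrFun hA i) j
    rw [Matrix.conjTranspose_apply, star_trivial] at this
    rw [this, hAij]
  obtain ⟨X, hX, hXT, htr⟩ := exists_sign B hB
  have hsym : ∀ k l, X k l = X l k := fun k l => congrFun (congrFun hXT l) k
  have htrace : ∀ Y : Matrix n n ℝ, (B * Y).trace = (A * Y).trace - Y j i - Y i j := by
    intro Y
    have h1 : ∀ k, (B * Y) k k = (A * Y) k k - (if k = i then Y j i else 0)
        - (if k = j then Y i j else 0) := by
      intro k
      rw [Matrix.mul_apply, Matrix.mul_apply]
      have h2 : ∀ l, B k l * Y l k = A k l * Y l k - (if l = j then (if k = i then Y j i else 0)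
          else 0) - (if l = i then (if k = j then Y i j else 0) else 0) := by
        intro l
        rw [hAB]
        by_cases hki : k = i <;> by_cases hkj : k = j <;> by_cases hli : l = i <;>
          by_cases hlj : l = j <;> simp_all [sub_mul]
      simp only [h2, Finset.sum_sub_distrib, Finset.sum_ite_eq', Finset.mem_univ, if_true]
    simp only [Matrix.trace, Matrix.diag_apply, h1, Finset.sum_sub_distrib, Finset.sum_ite_eq',
      Finset.mem_univ, if_true]
  have h1 := htrace X
  rw [htr, hsym j i] at h1
  have h2 := trace_mul_le A hA X hX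
  have h3 := neg_one_le X hX i j
  by_contra hcon
  push Not at hcon
  have h4 : X i j = -1 := by linarith
  have h5 : (A * X).trace = ∑ k, |hA.eigenvalues k| := by linarith
  -- reflect the coordinate `j`
  let s : n → ℝ := fun k => if k = j then -1 else 1
  have hs : ∀ k, s k * s k = 1 := by
    intro k; simp only [s]; split_ifs <;> norm_num
  let Y : Matrix n n ℝ := diagonal s * X * diagonal s
  have hY : Yᵀ * Y = 1 := by
    simp only [Y]
    rw [Matrix.transpose_mul, Matrix.transpose_mul, Matrix.diagonal_transpose]
    calc diagonal s * (Xᵀ * diagonal s) * (diagonal s * X * diagonal s)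
        = diagonal s * (Xᵀ * (diagonal s * diagonal s) * X) * diagonal s := by
          simp only [Matrix.mul_assoc]
      _ = 1 := by
          rw [Matrix.diagonal_mul_diagonal]
          simp only [hs]
          rw [Matrix.diagonal_one, Matrix.mul_one, hX, Matrix.mul_one,
            Matrix.diagonal_mul_diagonal]
          simp only [hs]
          rw [Matrix.diagonal_one]
  have hYe : ∀ k l, Y k l = s k * X k l * s l := by
    intro k l
    simp only [Y]
    rw [Matrix.mul_diagonal, Matrix.diagonal_mul]
  have hYv : ∀ k l, A k l * Y l k = A k l * X l k + (if l = j then (if k = i then 2 else 0)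
      else 0) + (if l = i then (if k = j then 2 else 0) else 0) := by
    intro k l
    rw [hYe]
    simp only [s]
    by_cases hlj : l = j
    · subst hlj
      by_cases hki : k = i
      · subst hki
        rw [hAij, hsym l k, h4]
        simp [hij, hij.symm]
        norm_num
      · have : X l k = 0 := by rw [hsym]; exact zero_of X hX i l h4 k hki
        rw [this]
        simp [hki, hij.symm]
    · by_cases hkj : k = j
      · subst hkj
        by_cases hli : l = i
        · subst hli
          rw [hAji, h4]
          simp [hij, hij.symm]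
          norm_num
        · have : X l k = 0 := zero_of X hX i k h4 l hli
          rw [this]
          simp [hli, hlj]
      · simp [hlj, hkj]
  have h6 : (A * Y).trace = (A * X).trace + 2 + 2 := by
    simp only [Matrix.trace, Matrix.diag_apply, Matrix.mul_apply, hYv, Finset.sum_add_distrib,
      Finset.sum_ite_eq', Finset.mem_univ, if_true]
  have h7 := trace_mul_le A hA Y hY
  linarith

/-- Deleting an edge from a finite graph raises the energy by strictly less than two; in
particular there is no graph `G` with an edge `e` such that `ℰ(G ∖ e) = ℰ(G) + 2`. -/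
theorem result : (∀ (V : Type) (_ : Fintype V) (G : SimpleGraph V), ∀ e ∈ G.edgeSet,
      energy (G.deleteEdges {e}) < energy G + 2) ∧
    ¬ ∃ (V : Type) (_ : Fintype V) (G : SimpleGraph V), ∃ e ∈ G.edgeSet,
      energy (G.deleteEdges {e}) = energy G + 2 := by
  classical
  have key : ∀ (V : Type) (_ : Fintype V) (G : SimpleGraph V), ∀ e ∈ G.edgeSet,
      energy (G.deleteEdges {e}) < energy G + 2 := by
    intro V _ G e he
    induction e with
    | _ i j =>
      have hij : G.Adj i j := he
      rw [energy_eq, energy_eq]
      refine strict (G.adjMatrix ℝ) ((G.deleteEdges {s(i, j)}).adjMatrix ℝ) i j hij.ne ?_ _ _ ?_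
      · intro k l
        rw [SimpleGraph.adjMatrix_apply, SimpleGraph.adjMatrix_apply]
        have h1 : s(k, l) ∈ ({s(i, j)} : Set (Sym2 V)) ↔ (k = i ∧ l = j ∨ k = j ∧ l = i) := by
          rw [Set.mem_singleton_iff, Sym2.eq_iff]
        have h0 : (G.deleteEdges {s(i, j)}).Adj k l ↔
            G.Adj k l ∧ ¬ (k = i ∧ l = j ∨ k = j ∧ l = i) := by
          rw [SimpleGraph.deleteEdges_adj, h1]
        simp only [h0]
        by_cases h2 : k = i ∧ l = j ∨ k = j ∧ l = i
        · have h3 : G.Adj k l := by
            rcases h2 with ⟨rfl, rfl⟩ | ⟨rfl, rfl⟩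
            · exact hij
            · exact hij.symm
          simp [h2, h3]
        · simp [h2]
      · rw [SimpleGraph.adjMatrix_apply, if_pos hij]
  refine ⟨key, ?_⟩
  rintro ⟨V, _, G, e, he, h⟩
  exact (key V _ G e he).ne h

end Pool.Agent.Results.MP_51d21a_co.NoIncreaseByTwo
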